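import Pool.Agent.Lib.MP_bcb457_an.Key

/-!
# The Aaronson–Ambainis inequality for unimodular homogeneous polynomials on the cube
-/

set_option autoImplicit false

open Real

namespace Pool.Agent.Results.MP_bcb457_an.AllLargeK

/-- The monomial `x ^ S = ∏ i ∈ S, x i` on the discrete cube `{-1, 1} ^ n`. -/
def chi {n : ℕ} (S : Finset (Fin n)) (x : Fin n → ℤˣ) : ℂ := ∏ i ∈ S, (((x i : ℤˣ) : ℤ) : ℂ)

/-- The class `P_{n,d}(1)` of complex functions on `{-1, 1} ^ n` whose expansion in the monomials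
`x ^ S` has coefficients of modulus `1` for `|S| = d` and `0` for `|S| ≠ d`. -/
def P (n d : ℕ) : Set ((Fin n → ℤˣ) → ℂ) :=
  {f | ∃ c : Finset (Fin n) → ℂ, (∀ S, S.card = d → ‖c S‖ = 1) ∧ (∀ S, S.card ≠ d → c S = 0) ∧
    ∀ x, f x = ∑ S, c S * chi S x}

/-- The maximum norm of a function on the cube. -/
noncomputable def supNorm {n : ℕ} (f : (Fin n → ℤˣ) → ℂ) : ℝ := ⨆ x, ‖f x‖

/-- `T_{n,d}`, the least maximum norm of a function in `P_{n,d}(1)`. -/
noncomputable def T (n d : ℕ) : ℝ := sInf (supNorm '' P n d)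

/-- **Answer to Q1**: for every sufficiently large `K` there is `C` such that the inequality of Q1
holds for all `1 ≤ d ≤ n`. -/
theorem result : ∃ K₀ : ℝ, 1 < K₀ ∧ ∀ K : ℝ, K₀ ≤ K → ∃ C : ℝ, 0 < C ∧
    ∀ n d : ℕ, 1 ≤ d → d ≤ n →
      √(n.choose d : ℝ) ≤
        C * (d : ℝ) ^ ((K + 1) / (2 * K - 2)) * (n : ℝ) ^ (-1 / (2 * K - 2)) * T n d := by
  obtain ⟨κ, hκ, E, hE, C, hC, h⟩ := Pool.Agent.Lib.MP_bcb457_an.key
  have hE0 : 0 < E := by linarith
  refine ⟨1 + E / κ, by linarith [(by positivity : 0 < E / κ)], fun K hK => ?_⟩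
  have hK1 : E / κ ≤ K - 1 := by linarith
  have hK2 : 0 < K - 1 := lt_of_lt_of_le (by positivity) hK1
  set α : ℝ := 1 / (2 * (K - 1)) with hα
  have hα0 : 0 < α := by positivity
  set s : ℝ := α / κ with hs
  have hs0 : 0 < s := by positivity
  have hsE : E * s ≤ 1 / 2 := by
    rw [hs, hα]
    rw [div_le_iff₀ hκ] at hK1
    rw [div_div, mul_one_div, div_le_div_iff₀ (by positivity) (by norm_num)]
    nlinarith
  have hs1 : s ≤ 1 := by nlinarith
  have e1 : (K + 1) / (2 * K - 2) = 1 / 2 + 2 * α := by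
    have : 2 * K - 2 ≠ 0 := by linarith [hK2]
    rw [hα]
    field_simp
    ring
  have e2 : -1 / (2 * K - 2) = -α := by
    rw [hα, neg_div]
    congr 2
    ring
  refine ⟨C ^ s, by positivity, fun n d hd hdn => ?_⟩
  rw [e1, e2]
  have hn1 : (1 : ℝ) ≤ n := by exact_mod_cast (hd.trans hdn)
  have hn0 : (0 : ℝ) < n := by linarith
  have hd1 : (1 : ℝ) ≤ d := by exact_mod_cast hd
  have hd0 : (0 : ℝ) < d := by linarith
  have hN : (0 : ℝ) < (n.choose d : ℝ) := by exact_mod_cast Nat.choose_pos hdn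
  set Y := √(n.choose d : ℝ) with hY
  have hY0 : 0 < Y := Real.sqrt_pos.mpr hN
  -- the inequality for one function
  have main : ∀ f ∈ P n d, Y ≤ C ^ s * (d : ℝ) ^ (1 / 2 + 2 * α) * (n : ℝ) ^ (-α) * supNorm f := by
    rintro f ⟨c, hc1, hc0, hf⟩
    obtain ⟨U, h1, h2⟩ := h n d hd hdn c hc1
    have e : Pool.Agent.Lib.MP_bcb457_an.F d c U = f fun i => if i ∈ U then -1 else 1 := by
      rw [hf]
      unfold Pool.Agent.Lib.MP_bcb457_an.F
      rw [Finset.sum_filter]
      apply Finset.sum_congr rfl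
      intro S _
      by_cases hS : S.card = d
      · rw [if_pos hS]
        congr 1
        unfold Pool.Agent.Lib.MP_bcb457_an.chi Pool.Agent.Lib.MP_bcb457_an.sg chi
        push_cast
        apply Finset.prod_congr rfl
        intro i _
        split_ifs <;> simp
      · rw [if_neg hS, hc0 S hS, zero_mul]
    have h0 : ‖Pool.Agent.Lib.MP_bcb457_an.F d c U‖ ≤ supNorm f := by
      rw [e]
      exact le_ciSup (f := fun x => ‖f x‖) (Set.finite_range _).bddAbove
        (fun i => if i ∈ U then -1 else 1)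
    set X := supNorm f with hX
    have h1' : Y ≤ X := h1.trans h0
    have h2' : Y * (n : ℝ) ^ κ ≤ C * (d : ℝ) ^ E * X :=
      h2.trans (mul_le_mul_of_nonneg_left h0 (by positivity))
    have hX0 : 0 < X := lt_of_lt_of_le hY0 h1'
    have h3 : Y * (n : ℝ) ^ α ≤ C ^ s * (d : ℝ) ^ (E * s) * X := by
      calc Y * (n : ℝ) ^ α = Y ^ (1 - s) * (Y * (n : ℝ) ^ κ) ^ s := by
            rw [mul_rpow hY0.le (by positivity), ← rpow_mul hn0.le, ← mul_assoc, ← rpow_add hY0]
            have e3 : κ * s = α := by rw [hs]; field_simp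
            rw [e3]
            simp
        _ ≤ X ^ (1 - s) * (C * (d : ℝ) ^ E * X) ^ s := by
            apply mul_le_mul
            · exact rpow_le_rpow hY0.le h1' (by linarith)
            · exact rpow_le_rpow (by positivity) h2' hs0.le
            · positivity
            · positivity
        _ = C ^ s * (d : ℝ) ^ (E * s) * (X ^ (1 - s) * X ^ s) := by
            rw [mul_rpow (by positivity) hX0.le, mul_rpow hC.le (by positivity),
              ← rpow_mul hd0.le]
            ring
        _ = C ^ s * (d : ℝ) ^ (E * s) * X := by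
            rw [← rpow_add hX0]
            simp
    have h4 : Y ≤ C ^ s * (d : ℝ) ^ (E * s) * (n : ℝ) ^ (-α) * X := by
      have h5 : 0 < (n : ℝ) ^ (-α) := by positivity
      have h6 := mul_le_mul_of_nonneg_right h3 h5.le
      rw [mul_assoc, ← rpow_add hn0, add_neg_cancel, rpow_zero, mul_one] at h6
      linarith
    refine h4.trans ?_
    apply mul_le_mul_of_nonneg_right _ hX0.le
    apply mul_le_mul_of_nonneg_right _ (by positivity)
    apply mul_le_mul_of_nonneg_left _ (by positivity)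
    exact rpow_le_rpow_of_exponent_le hd1 (by linarith)
  -- pass to the infimum
  set A : ℝ := C ^ s * (d : ℝ) ^ (1 / 2 + 2 * α) * (n : ℝ) ^ (-α) with hA
  have hA0 : 0 < A := by positivity
  have hne : (supNorm '' P n d).Nonempty := by
    refine ⟨_, Set.mem_image_of_mem _ (⟨fun S => if S.card = d then 1 else 0, ?_, ?_, fun x => rfl⟩ :
      (fun x => ∑ S : Finset (Fin n), (if S.card = d then (1 : ℂ) else 0) * chi S x) ∈ P n d)⟩
    · intro S hS
      simp [hS]
    · intro S hS
      simp [hS]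
  have hT : Y / A ≤ T n d := by
    apply le_csInf hne
    rintro _ ⟨f, hf, rfl⟩
    rw [div_le_iff₀ hA0, mul_comm]
    exact main f hf
  rw [div_le_iff₀ hA0, mul_comm] at hT
  exact hT

end Pool.Agent.Results.MP_bcb457_an.AllLargeK
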